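import Pool.Agent.TH346.CG.Defs2

/-!
# Cayley graphs of abelian groups: subadditivity of `nrm` for `k`-fold sums
-/

open Finset
open scoped Pointwise

namespace Pool.Agent.TH511.CG

open Pool.Agent.TH346.CG

variable {Γ : Type} [AddCommGroup Γ] [DecidableEq Γ]

theorem ks_add (D : Finset Γ) (a b : ℕ) : ks (a + b) D = ks a D + ks b D := by
  induction b with
  | zero =>
    exact (add_zero (ks a D)).symm
  | succ b ih =>
    show ks (a + b) D + D = ks a D + (ks b D + D)
    rw [ih, add_assoc]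

theorem zero_mem_ks {T : Finset Γ} (h0 : 0 ∈ T) (m : ℕ) : (0 : Γ) ∈ ks m T := by
  induction m with
  | zero => exact mem_singleton_self 0
  | succ m ih =>
    show (0 : Γ) ∈ ks m T + T
    exact mem_add.mpr ⟨0, ih, 0, h0, add_zero 0⟩

theorem neg_mem_ks {T : Finset Γ} (hT : -T = T) (m : ℕ) :
    ∀ x ∈ ks m T, -x ∈ ks m T := by
  induction m with
  | zero =>
    intro x hx
    have : x = 0 := mem_singleton.mp hx
    rw [this, neg_zero]
    exact mem_singleton_self 0
  | succ m ih =>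
    intro x hx
    obtain ⟨y, hy, z, hz, rfl⟩ := mem_add.mp (show x ∈ ks m T + T from hx)
    refine mem_add.mpr ⟨-y, ih y hy, -z, ?_, by rw [neg_add]⟩
    rw [← hT]
    exact neg_mem_neg hz

theorem ks_subset {T : Finset Γ} (h0 : 0 ∈ T) (j m : ℕ) : ks j T ⊆ ks (j + m) T := by
  rw [ks_add]
  intro x hx
  exact mem_add.mpr ⟨x, hx, 0, zero_mem_ks h0 m, add_zero x⟩

theorem nrm_mono (A : Finset Γ) {R R' : Finset Γ} (h : R ⊆ R') (a : Γ) :
    nrm A R a ≤ nrm A R' a :=
  card_le_card (filter_subset_filter _ h)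

theorem nrm_add (A R : Finset Γ) (a b : Γ) :
    nrm A R (a + b) ≤ nrm A R a + nrm A (R.image fun t => t - a) b := by
  unfold nrm
  have h1 : (R.filter fun t => ¬ (t ∈ A ↔ t - (a + b) ∈ A)) ⊆
      (R.filter fun t => ¬ (t ∈ A ↔ t - a ∈ A)) ∪
        (R.filter fun t => ¬ (t - a ∈ A ↔ t - a - b ∈ A)) := by
    intro t ht
    rw [mem_filter] at ht
    rw [mem_union, mem_filter, mem_filter]
    have h2 : t - (a + b) = t - a - b := by abel
    rw [h2] at ht
    by_cases h3 : (t ∈ A ↔ t - a ∈ A)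
    · refine Or.inr ⟨ht.1, fun h4 => ht.2 (h3.trans h4)⟩
    · exact Or.inl ⟨ht.1, h3⟩
  have h2 : (R.filter fun t => ¬ (t - a ∈ A ↔ t - a - b ∈ A)).card ≤
      ((R.image fun t => t - a).filter fun t => ¬ (t ∈ A ↔ t - b ∈ A)).card := by
    rw [← card_image_of_injective (R.filter fun t => ¬ (t - a ∈ A ↔ t - a - b ∈ A))
      (sub_left_injective (b := a))]
    refine card_le_card ?_
    intro t ht
    obtain ⟨s, hs, rfl⟩ := mem_image.mp ht
    rw [mem_filter] at hs ⊢
    exact ⟨mem_image_of_mem _ hs.1, hs.2⟩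
  calc _ ≤ _ := card_le_card h1
    _ ≤ _ := card_union_le _ _
    _ ≤ _ := Nat.add_le_add_left h2 _

theorem nrm_ks {Γ : Type} [AddCommGroup Γ] [DecidableEq Γ] (A T E : Finset Γ) (h0 : 0 ∈ T)
    (hT : -T = T) (j k s q n : ℕ)
    (hE : ∀ e ∈ E, e ∈ ks s T ∧ q * nrm A (ks (j + s * k) T) e ≤ n) (h : Γ)
    (hh : h ∈ ks k E) : q * nrm A (ks j T) h ≤ k * n := by
  induction k generalizing j h with
  | zero =>
    have h1 : h = 0 := mem_singleton.mp hh
    have h2 : nrm A (ks j T) h = 0 := by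
      unfold nrm
      rw [h1, card_eq_zero, filter_eq_empty_iff]
      intro t _ hcon
      exact hcon (by rw [sub_zero])
    rw [h2]
    simp
  | succ k ih =>
    obtain ⟨h', hh', e, he, rfl⟩ := mem_add.mp (show h ∈ ks k E + E from hh)
    have hs : j + s * (k + 1) = j + s + s * k := by ring
    have h1 : q * nrm A (ks (j + s) T) h' ≤ k * n := by
      refine ih (j + s) (fun e he => ?_) h' hh'
      have := hE e he
      rwa [hs] at this
    have h2 : q * nrm A (ks j T) e ≤ n := by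
      refine le_trans (Nat.mul_le_mul_left q (nrm_mono A (ks_subset h0 j (s * (k + 1))) e)) ?_
      exact (hE e he).2
    have h3 : nrm A (ks j T) (h' + e) ≤ nrm A (ks j T) e + nrm A (ks (j + s) T) h' := by
      rw [add_comm h' e]
      refine (nrm_add A (ks j T) e h').trans (Nat.add_le_add_left (nrm_mono A ?_ h') _)
      intro t ht
      obtain ⟨u, hu, rfl⟩ := mem_image.mp ht
      rw [ks_add]
      exact mem_add.mpr ⟨u, hu, -e, neg_mem_ks hT s e (hE e he).1, by abel⟩
    calc q * nrm A (ks j T) (h' + e) ≤ q * (nrm A (ks j T) e + nrm A (ks (j + s) T) h') :=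
          Nat.mul_le_mul_left q h3
      _ = q * nrm A (ks j T) e + q * nrm A (ks (j + s) T) h' := by ring
      _ ≤ n + k * n := Nat.add_le_add h2 h1
      _ = (k + 1) * n := by ring

end Pool.Agent.TH511.CG
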